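import Pool.Agent.Y174.SD.Stm

/-! Project SD (helper174), job SD-GP: general linear combinations of forms without common zeros. -/

set_option autoImplicit false

open MvPolynomial

namespace Pool.Agent.Y212.SD

/-- a homogeneous polynomial at a multiple of a constant vector -/
theorem aeval_scal {K Q : Type*} [Field K] [CommRing Q] [Algebra K Q] {s e : ℕ}
    {F : MvPolynomial (Fin s) K} (hF : F.IsHomogeneous e) (β : Q) (u : Fin s → K) :
    aeval (fun j => β * algebraMap K Q (u j)) F = β ^ e * algebraMap K Q (eval u F) := by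
  rw [aeval_def, eval₂_eq', eval_eq', map_sum, Finset.mul_sum]
  refine Finset.sum_congr rfl fun d hd => ?_
  have h1 : ∑ j, d j = e := by
    have := hF (mem_support_iff.1 hd)
    rw [← this, Finsupp.weight_apply, Finsupp.sum_fintype _ _ (fun i => by simp)]
    simp
  rw [map_mul, map_prod]
  simp only [mul_pow, Finset.prod_mul_distrib, map_pow]
  rw [Finset.prod_pow_eq_pow_sum, h1]
  ring

/-- more forms than variables satisfy a homogeneous relation -/
theorem exists_rel {K : Type*} [Field K] {n s m : ℕ} (hs : n < s) (hm : 1 ≤ m)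
    (b : Fin s → MvPolynomial (Fin n) K) (hb : ∀ j, (b j).IsHomogeneous m) :
    ∃ (e : ℕ) (F : MvPolynomial (Fin s) K), F ≠ 0 ∧ F.IsHomogeneous e ∧ aeval b F = 0 := by
  have h1 : ¬ AlgebraicIndependent K b := by
    intro h
    have h2 := h.lift_cardinalMk_le_trdeg
    rw [MvPolynomial.trdeg_of_isDomain] at h2
    simp only [Cardinal.mk_fin, Cardinal.lift_natCast, Nat.cast_le] at h2
    omega
  rw [AlgebraicIndependent, injective_iff_map_eq_zero] at h1
  push Not at h1
  obtain ⟨F, hF0, hF⟩ := h1
  have h3 : ∃ e, homogeneousComponent e F ≠ 0 := by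
    by_contra h
    push Not at h
    apply hF
    rw [← sum_homogeneousComponent F]
    exact Finset.sum_eq_zero fun i _ => h i
  obtain ⟨e, he⟩ := h3
  refine ⟨e, homogeneousComponent e F, he, homogeneousComponent_isHomogeneous e F, ?_⟩
  have h4 : ∀ i, (aeval b (homogeneousComponent i F)).IsHomogeneous (m * i) := fun i =>
    (homogeneousComponent_isHomogeneous i F).aeval b hb
  have h5 : homogeneousComponent (m * e) (aeval b F) = aeval b (homogeneousComponent e F) := by
    conv_lhs => rw [← sum_homogeneousComponent F]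
    rw [map_sum, map_sum]
    have h6 : ∀ i, homogeneousComponent (m * e) (aeval b (homogeneousComponent i F)) =
        if i = e then aeval b (homogeneousComponent e F) else 0 := by
      intro i
      rw [homogeneousComponent_of_mem (h4 i)]
      by_cases h : i = e
      · subst h; simp
      · rw [if_neg h, if_neg]
        intro h7
        exact h (Nat.eq_of_mul_eq_mul_left (by omega) h7).symm
    rw [Finset.sum_congr rfl fun i _ => h6 i, Finset.sum_ite_eq']
    split_ifs with h7
    · rfl
    · rw [Finset.mem_range, not_lt] at h7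
      rw [homogeneousComponent_eq_zero e F (by omega), map_zero]
  rw [← h5, hF0, map_zero]

variable {k K : Type*} [Field k] [Infinite k] [Field K] [Algebra k K]

/-- a point over `k` with last coordinate one at which a homogeneous polynomial does not vanish -/
theorem exists_pt {t e : ℕ} {F : MvPolynomial (Fin (t + 1)) K} (hF0 : F ≠ 0)
    (hF : F.IsHomogeneous e) :
    ∃ w : Fin t → k, eval (Fin.snoc (fun i => algebraMap k K (w i)) 1) F ≠ 0 := by
  have h1 : F * X (Fin.last t) ≠ 0 := mul_ne_zero hF0 (X_ne_zero _)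
  have h2 : ∃ x ∈ Set.pi Set.univ (fun _ : Fin (t + 1) => Set.range (algebraMap k K)),
      eval x (F * X (Fin.last t)) ≠ 0 := by
    by_contra h
    push Not at h
    apply h1
    refine funext_set _ (fun _ => Set.infinite_range_of_injective (algebraMap k K).injective)
      fun x hx => ?_
    rw [h x hx, map_zero]
  obtain ⟨x, hx, hx0⟩ := h2
  choose v hv using fun j => (Set.mem_univ_pi.1 hx j)
  rw [map_mul, eval_X] at hx0
  have hl : x (Fin.last t) ≠ 0 := right_ne_zero_of_mul hx0
  have hFx : eval x F ≠ 0 := left_ne_zero_of_mul hx0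
  refine ⟨fun i => v i.castSucc / v (Fin.last t), fun h0 => hFx ?_⟩
  have h3 : x = fun j => x (Fin.last t) *
      algebraMap K K ((Fin.snoc (fun i => algebraMap k K (v i.castSucc / v (Fin.last t))) 1 :
        Fin (t + 1) → K) j) := by
    funext j
    refine Fin.lastCases ?_ (fun i => ?_) j
    · rw [Fin.snoc_last]; simp
    · rw [Fin.snoc_castSucc, Algebra.algebraMap_self_apply, map_div₀, hv, hv,
        mul_div_cancel₀ _ hl]
  have h4 := aeval_scal hF (x (Fin.last t))
    (Fin.snoc (fun i => algebraMap k K (v i.castSucc / v (Fin.last t))) 1 : Fin (t + 1) → K)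
  rw [← h3, h0, map_zero, mul_zero] at h4
  rw [aeval_eq_eval] at h4
  exact h4

/-- one reduction step -/
theorem step {n t m : ℕ} (ht : n ≤ t) (hm : 1 ≤ m) (b : Fin (t + 1) → MvPolynomial (Fin n) K)
    (hb : ∀ j, (b j).IsHomogeneous m) :
    ∃ w : Fin t → k, ∀ j, b j ∈ (Ideal.span (Set.range fun i : Fin t =>
      b i.castSucc - C (algebraMap k K (w i)) * b (Fin.last t))).radical := by
  obtain ⟨e, F, hF0, hF, hFb⟩ := exists_rel (by omega) hm b hb
  obtain ⟨w, hw⟩ := exists_pt (k := k) hF0 hF
  refine ⟨w, ?_⟩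
  obtain ⟨J, hJ⟩ : ∃ J : Ideal (MvPolynomial (Fin n) K), J = Ideal.span (Set.range fun i : Fin t =>
      b i.castSucc - C (algebraMap k K (w i)) * b (Fin.last t)) := ⟨_, rfl⟩
  rw [← hJ]
  have h1 : ∀ i : Fin t, Ideal.Quotient.mk J (b i.castSucc) =
      Ideal.Quotient.mk J (b (Fin.last t)) * algebraMap K _ (algebraMap k K (w i)) := by
    intro i
    have h2 : b i.castSucc - C (algebraMap k K (w i)) * b (Fin.last t) ∈ J := by
      rw [hJ]; exact Ideal.subset_span ⟨i, rfl⟩
    rw [← Ideal.Quotient.eq_zero_iff_mem, map_sub, sub_eq_zero] at h2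
    rw [h2, map_mul, mul_comm]
    rfl
  have h3 : (fun j => Ideal.Quotient.mk J (b j)) = fun j => Ideal.Quotient.mk J (b (Fin.last t)) *
      algebraMap K _ ((Fin.snoc (fun i => algebraMap k K (w i)) 1 : Fin (t + 1) → K) j) := by
    funext j
    refine Fin.lastCases ?_ (fun i => ?_) j
    · rw [Fin.snoc_last, map_one, mul_one]
    · rw [Fin.snoc_castSucc, h1]
  have h4 : aeval (fun j => Ideal.Quotient.mk J (b j)) F = 0 := by
    have h5 : aeval (fun j => Ideal.Quotient.mk J (b j)) F =
        (Ideal.Quotient.mkₐ K J) (aeval b F) := by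
      rw [← AlgHom.comp_apply, comp_aeval]
      rfl
    rw [h5, hFb, map_zero]
  rw [h3, aeval_scal hF] at h4
  have h6 : Ideal.Quotient.mk J (b (Fin.last t)) ^ e = 0 := by
    have h7 : IsUnit (algebraMap K (MvPolynomial (Fin n) K ⧸ J)
        (eval (Fin.snoc (fun i => algebraMap k K (w i)) 1) F)) :=
      (IsUnit.mk0 _ hw).map (algebraMap K (MvPolynomial (Fin n) K ⧸ J))
    exact h7.mul_left_eq_zero.1 h4
  have hlast : b (Fin.last t) ∈ J.radical := by
    refine ⟨e, ?_⟩
    rw [← Ideal.Quotient.eq_zero_iff_mem, map_pow]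
    exact h6
  intro j
  refine Fin.lastCases hlast (fun i => ?_) j
  have h8 : b i.castSucc = (b i.castSucc - C (algebraMap k K (w i)) * b (Fin.last t)) +
      C (algebraMap k K (w i)) * b (Fin.last t) := by ring
  rw [h8]
  refine Ideal.add_mem _ (Ideal.le_radical ?_) (Ideal.mul_mem_left _ _ hlast)
  rw [hJ]; exact Ideal.subset_span ⟨i, rfl⟩

/-- linear combinations -/
noncomputable def lc {n N s : ℕ} (H : Fin N → MvPolynomial (Fin n) K) (z : Fin s → Fin N → k)
    (i : Fin s) : MvPolynomial (Fin n) K := ∑ j, C (algebraMap k K (z i j)) * H j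

theorem lc_hom {n N s m : ℕ} {H : Fin N → MvPolynomial (Fin n) K}
    (hH : ∀ j, (H j).IsHomogeneous m) (z : Fin s → Fin N → k) (i : Fin s) :
    (lc H z i).IsHomogeneous m := by
  refine IsHomogeneous.sum _ _ _ fun j _ => ?_
  have := (isHomogeneous_C (Fin n) (algebraMap k K (z i j))).mul (hH j)
  rwa [zero_add] at this

theorem reduce {n N m : ℕ} (hm : 1 ≤ m) {H : Fin N → MvPolynomial (Fin n) K}
    (hH : ∀ j, (H j).IsHomogeneous m) : ∀ (s : ℕ) (z : Fin s → Fin N → k),
      (∀ i : Fin n, (X i : MvPolynomial (Fin n) K) ∈ (Ideal.span (Set.range (lc H z))).radical) →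
      ∃ z' : Fin n → Fin N → k, ∀ i : Fin n, (X i : MvPolynomial (Fin n) K) ∈
        (Ideal.span (Set.range (lc H z'))).radical := by
  intro s
  induction s with
  | zero =>
    intro z hz
    refine ⟨fun _ _ => 0, fun i => ?_⟩
    refine Ideal.radical_mono (Ideal.span_le.2 ?_) (hz i)
    rintro _ ⟨j, -⟩
    exact j.elim0
  | succ t ih =>
    intro z hz
    rcases Nat.lt_or_ge t n with h | h
    · refine ⟨fun i => if hi : (i : ℕ) < t + 1 then z ⟨i, hi⟩ else 0, fun i => ?_⟩
      refine Ideal.radical_mono (Ideal.span_mono ?_) (hz i)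
      rintro _ ⟨j, rfl⟩
      refine ⟨⟨j, lt_of_lt_of_le j.2 (by omega)⟩, ?_⟩
      unfold lc
      simp only [dif_pos j.2]
    · obtain ⟨w, hw⟩ := step (k := k) h hm (lc H z) (lc_hom hH z)
      refine ih (fun i => z i.castSucc - w i • z (Fin.last t)) fun i => ?_
      have h1 : lc H (fun i : Fin t => z i.castSucc - w i • z (Fin.last t)) = fun i : Fin t =>
          lc H z i.castSucc - C (algebraMap k K (w i)) * lc H z (Fin.last t) := by
        funext i
        unfold lc
        rw [Finset.mul_sum, ← Finset.sum_sub_distrib]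
        refine Finset.sum_congr rfl fun j _ => ?_
        simp only [Pi.sub_apply, Pi.smul_apply, smul_eq_mul, map_sub, map_mul]
        ring
      rw [h1]
      have h2 : (Ideal.span (Set.range (lc H z))).radical ≤ (Ideal.span (Set.range fun i : Fin t =>
          lc H z i.castSucc - C (algebraMap k K (w i)) * lc H z (Fin.last t))).radical := by
        rw [Ideal.radical_le_radical_iff, Ideal.span_le]
        rintro _ ⟨j, rfl⟩
        exact hw j
      exact h2 (hz i)

theorem t_GP : Pool.Agent.Y174.SD.S_GP := by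
  intro k K _ _ _ _ n N m N0 hm H hH hN0
  have h0 : ∀ i : Fin n, (X i : MvPolynomial (Fin n) K) ∈
      (Ideal.span (Set.range (lc H (fun i j => if i = j then (1 : k) else 0)))).radical := by
    intro i
    have h1 : lc H (fun i j => if i = j then (1 : k) else 0) = H := by
      funext i
      unfold lc
      rw [Finset.sum_eq_single i]
      · simp
      · intro j _ hj
        have h3 : (if i = j then (1 : k) else 0) = 0 := if_neg (Ne.symm hj)
        simp only [h3, map_zero, zero_mul]
      · intro h
        exact absurd (Finset.mem_univ i) h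
    rw [h1]
    refine ⟨N0, ?_⟩
    have h2 := hN0 (Finsupp.single i N0) (by simp)
    rwa [X_pow_eq_monomial]
  obtain ⟨z, hz⟩ := reduce hm hH N _ h0
  choose e he using hz
  refine ⟨z, ∑ i, e i + 1, fun β hβ => ?_⟩
  have h1 : ∃ i, e i ≤ β i := by
    by_contra h
    push Not at h
    have h2 : β.degree ≤ ∑ i, e i := by
      rw [Finsupp.degree_eq_sum]
      exact Finset.sum_le_sum fun i _ => (h i).le
    omega
  obtain ⟨i, hi⟩ := h1
  have h3 : (monomial β 1 : MvPolynomial (Fin n) K) =
      monomial (β - Finsupp.single i (e i)) 1 * X i ^ e i := by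
    rw [X_pow_eq_monomial, monomial_mul, mul_one, tsub_add_cancel_of_le]
    exact Finsupp.single_le_iff.2 hi
  rw [h3]
  exact Ideal.mul_mem_left _ _ (he i)

end Pool.Agent.Y212.SD
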