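import Pool.Agent.Y174.SD.Stm

/-! Project SD (helper174), job SD-INT: integrality over the ring generated by forms without common
zeros. -/

set_option autoImplicit false

open MvPolynomial

namespace Pool.Agent.Y212.SD

section core

variable {R : Type*} [CommRing R] {n : ℕ} {ι : Type*} (A : ι → MvPolynomial (Fin n) R)

/-- the span of the monomials of degree `< N` over the subalgebra generated by the `A j` -/
noncomputable def G (N : ℕ) : Submodule (Algebra.adjoin R (Set.range A)) (MvPolynomial (Fin n) R) :=
  Submodule.span _ ((fun γ : Fin n →₀ ℕ => (monomial γ 1 : MvPolynomial (Fin n) R)) ''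
    {γ | γ.degree < N})

theorem mono_mem_G {N : ℕ} {γ : Fin n →₀ ℕ} (h : γ.degree < N) :
    (monomial γ 1 : MvPolynomial (Fin n) R) ∈ G A N :=
  Submodule.subset_span ⟨γ, h, rfl⟩

theorem comp_mul_mem_G {m N : ℕ} (hm : 1 ≤ m) {j : ι} (hA : (A j).IsHomogeneous m)
    (h : MvPolynomial (Fin n) R) : homogeneousComponent N (h * A j) ∈ G A N := by
  induction h using MvPolynomial.induction_on' with
  | monomial d c =>
    have h1 : (monomial d c * A j : MvPolynomial (Fin n) R) ∈
        homogeneousSubmodule (Fin n) R (d.degree + m) :=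
      (isHomogeneous_monomial c rfl).mul hA
    rw [homogeneousComponent_of_mem h1]
    split_ifs with h2
    · have h3 : (monomial d c * A j : MvPolynomial (Fin n) R) =
          (⟨C c * A j, Subalgebra.mul_mem _ (Subalgebra.algebraMap_mem _ c)
            (Algebra.subset_adjoin ⟨j, rfl⟩)⟩ : Algebra.adjoin R (Set.range A)) •
              (monomial d 1 : MvPolynomial (Fin n) R) := by
        rw [Subalgebra.smul_def, smul_eq_mul]
        change _ = C c * A j * monomial d 1
        rw [mul_right_comm, C_mul_monomial, mul_one]
      rw [h3]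
      exact Submodule.smul_mem _ _ (mono_mem_G A (by omega))
    · exact Submodule.zero_mem _
  | add p q hp hq =>
    rw [add_mul, map_add]
    exact Submodule.add_mem _ hp hq

theorem comp_mem_G {m N : ℕ} (hm : 1 ≤ m) (hA : ∀ j, (A j).IsHomogeneous m)
    {f : MvPolynomial (Fin n) R} (hf : f ∈ Ideal.span (Set.range A)) :
    homogeneousComponent N f ∈ G A N := by
  induction hf using Submodule.span_induction with
  | mem x hx =>
    obtain ⟨j, rfl⟩ := hx
    have := comp_mul_mem_G A (N := N) hm (hA j) 1
    rwa [one_mul] at this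
  | zero => rw [map_zero]; exact Submodule.zero_mem _
  | add x y _ _ hx hy => rw [map_add]; exact Submodule.add_mem _ hx hy
  | smul a x hx' hx =>
    -- strengthen: go through sums
    clear hx
    rw [smul_eq_mul]
    induction hx' using Submodule.span_induction generalizing a with
    | mem x hx =>
      obtain ⟨j, rfl⟩ := hx
      exact comp_mul_mem_G A hm (hA j) a
    | zero => rw [mul_zero, map_zero]; exact Submodule.zero_mem _
    | add x y _ _ hx hy => rw [mul_add, map_add]; exact Submodule.add_mem _ (hx a) (hy a)
    | smul b x _ hx =>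
      rw [smul_eq_mul, ← mul_assoc]
      exact hx (a * b)

theorem finite_lt (N : ℕ) : {γ : Fin n →₀ ℕ | γ.degree < N}.Finite := by
  have h1 : {γ : Fin n →₀ ℕ | γ.degree < N} ⊆
      ⋃ d ∈ Finset.range N, {γ : Fin n →₀ ℕ | γ.degree = d} := by
    intro γ hγ
    simp only [Set.mem_iUnion]
    exact ⟨γ.degree, Finset.mem_range.2 hγ, rfl⟩
  refine Set.Finite.subset (Set.Finite.biUnion (Finset.finite_toSet _) fun d _ => ?_) h1
  have h2 : Finite {γ : Fin n →₀ ℕ // γ.degree = d} :=
    inferInstanceAs (Finite (Pool.Agent.Y174.T.Ex n d))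
  exact Set.finite_coe_iff.1 h2

theorem int_core [IsDomain R] {m N : ℕ} (hm : 1 ≤ m) (hA : ∀ j, (A j).IsHomogeneous m) {D : R}
    (hD : ∀ β : Fin n →₀ ℕ, β.degree = N →
      (C D * monomial β 1 : MvPolynomial (Fin n) R) ∈ Ideal.span (Set.range A)) (i : Fin n) :
    IsIntegral (Algebra.adjoin R (Set.range A)) (C D * X i : MvPolynomial (Fin n) R) := by
  rcases Nat.eq_zero_or_pos N with hN | hN
  · subst hN
    have h1 := hD 0 (by simp)
    have h2 := comp_mem_G A (N := 0) hm hA h1
    have h3 : G A 0 = ⊥ := by
      unfold G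
      rw [Submodule.span_eq_bot]
      rintro x ⟨γ, hγ, -⟩
      exact absurd hγ (Nat.not_lt_zero _)
    rw [h3, Submodule.mem_bot, homogeneousComponent_zero] at h2
    have h4 : D = 0 := by
      have h5 : coeff 0 (C D * monomial 0 1 : MvPolynomial (Fin n) R) = D := by
        rw [C_mul_monomial, mul_one, coeff_monomial, if_pos rfl]
      rw [h5] at h2
      exact C_injective (Fin n) R (by rw [h2, C_0])
    rw [h4, C_0, zero_mul]
    exact isIntegral_zero
  · refine isIntegral_of_smul_mem_submodule (G A N) ?_ ?_ _ ?_
    · intro h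
      have h1 : (monomial 0 1 : MvPolynomial (Fin n) R) ∈ G A N := mono_mem_G A (by simpa using hN)
      rw [h, Submodule.mem_bot, monomial_eq_zero] at h1
      exact one_ne_zero h1
    · exact Submodule.fg_span ((finite_lt N).image _)
    · intro x hx
      refine Submodule.span_induction (p := fun x _ => (C D * X i : MvPolynomial (Fin n) R) • x ∈
        G A N) ?_ ?_ ?_ ?_ hx
      · rintro _ ⟨γ, hγ, rfl⟩
        have h1 : (C D * X i : MvPolynomial (Fin n) R) • (monomial γ 1 : MvPolynomial (Fin n) R) =
            C D * monomial (γ + Finsupp.single i 1) 1 := by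
          rw [smul_eq_mul, mul_assoc, X, monomial_mul, mul_one, add_comm]
        rw [h1]
        have h2 : (γ + Finsupp.single i 1).degree = γ.degree + 1 := by
          rw [map_add, Finsupp.degree_single]
        have hγ' : γ.degree < N := hγ
        rcases Nat.lt_or_ge (γ.degree + 1) N with h3 | h3
        · have h4 := Submodule.smul_mem (G A N) (algebraMap R (Algebra.adjoin R (Set.range A)) D)
            (mono_mem_G A (N := N) (γ := γ + Finsupp.single i 1) (by omega))
          rwa [Subalgebra.smul_def, smul_eq_mul] at h4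
        · have h5 : (γ + Finsupp.single i 1).degree = N := by omega
          have h6 := comp_mem_G A (N := N) hm hA (hD _ h5)
          have h7 : (C D * monomial (γ + Finsupp.single i 1) 1 : MvPolynomial (Fin n) R) ∈
              homogeneousSubmodule (Fin n) R N := by
            rw [C_mul_monomial, mul_one]
            exact isHomogeneous_monomial D h5
          rwa [homogeneousComponent_of_mem h7, if_pos rfl] at h6
      · rw [smul_zero]; exact Submodule.zero_mem _
      · intro x y _ _ hx hy
        rw [smul_add]; exact Submodule.add_mem _ hx hy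
      · intro a x _ hx
        rw [smul_comm]; exact Submodule.smul_mem _ _ hx

end core

/-- integrality over a subalgebra which is the range -/
theorem isIntegralElem_of_adjoin {R : Type*} [CommRing R] {n : ℕ} {ι : Type*}
    (A : ι → MvPolynomial (Fin n) R) {x : MvPolynomial (Fin n) R}
    (h : IsIntegral (Algebra.adjoin R (Set.range A)) x) :
    (aeval A : MvPolynomial ι R →ₐ[R] MvPolynomial (Fin n) R).toRingHom.IsIntegralElem x := by
  obtain ⟨p, hp, hpx⟩ := h
  have hr : ∀ b : Algebra.adjoin R (Set.range A), ∃ q : MvPolynomial ι R, aeval A q = (b : _) := by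
    rintro ⟨b, hb⟩
    rw [Algebra.adjoin_range_eq_range_aeval] at hb
    exact hb
  let f : MvPolynomial ι R →+* Algebra.adjoin R (Set.range A) :=
    ((aeval A : MvPolynomial ι R →ₐ[R] MvPolynomial (Fin n) R).codRestrict
      (Algebra.adjoin R (Set.range A)) (fun q => by
        rw [Algebra.adjoin_range_eq_range_aeval]; exact ⟨q, rfl⟩)).toRingHom
  have hf : Function.Surjective f := by
    intro b
    obtain ⟨q, hq⟩ := hr b
    exact ⟨q, Subtype.ext hq⟩
  have hl : p ∈ Polynomial.lifts f := by
    rw [Polynomial.lifts_iff_coeff_lifts]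
    intro k
    exact hf _
  obtain ⟨q, hq, -, hqm⟩ := Polynomial.lifts_and_natDegree_eq_and_monic hl hp
  refine ⟨q, hqm, ?_⟩
  rw [← hq, Polynomial.eval₂_map] at hpx
  exact hpx

theorem t_INT : Pool.Agent.Y174.SD.S_INT := by
  intro R _ _ n m N hm A hA D hD i
  exact isIntegralElem_of_adjoin A (int_core A hm hA hD i)

end Pool.Agent.Y212.SD
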